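import Pool.Agent.Pal.D1

/-!
# Palindromic prefixes of algebraic numbers: the function field model

The field of real numbers and the base `b` are replaced by a field of Laurent series `K((1/T))` and
the indeterminate `T`; with `X = 1/T` the digit sequence of an element is the sequence of the
coefficients of a power series in `X`.
-/

set_option autoImplicit false

open Polynomial

universe u

namespace Pool.Agent.Results.MP_66aed5_nt.FunctionFieldModel

/-- The word `a 0, …, a n` of the coefficients of `f` is a palindrome. -/
def IsPalPrefix {K : Type u} [Field K] (f : PowerSeries K) (n : ℕ) : Prop :=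
  ∀ k ≤ n, PowerSeries.coeff (n - k) f = PowerSeries.coeff k f

/-- The power series `f` is a rational function. -/
def IsRationalFunction {K : Type u} [Field K] (f : PowerSeries K) : Prop :=
  ∃ P Q : K[X], Q ≠ 0 ∧ (Q : PowerSeries K) * f = (P : PowerSeries K)

/-- **The question in the function field model.**
(1) For a field `K` every algebraic power series over `K`, which is not rational, has only finitely
many palindromic prefixes if and only if `K` has characteristic `0`.
(2) For a prime `p` and `q = p ^ 2` the series `f = (1 + X ^ (q - 1)) ^ (-1 / (q - 1))` over a field of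
characteristic `p` is not rational and its prefix of length `q ^ m` is a palindrome for all `m`.
(3) Let `K` have characteristic `0` and let `f`, not rational, be a root of the polynomial `P ≠ 0` over
`K[X]`. There are `C, N₀` such that for all `N ≥ N₀` and every word `w = (a s, …, a (s + N))` of the
coefficient sequence of `f` there are at most `deg P` integers `n` at which the sequence, read
backwards from `n`, agrees with a non-zero multiple of `w` but for at most `N / C` places, and at most
`deg P` integers `n` at which this holds for the sequence read forwards from `n`. -/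
theorem result :
    (∀ (K : Type u) [Field K], (∀ f : PowerSeries K, IsAlgebraic K[X] f → ¬ IsRationalFunction f →
      {n : ℕ | IsPalPrefix f n}.Finite) ↔ CharZero K) ∧
    (∀ (p : ℕ) [Fact p.Prime] (K : Type u) [Field K] [CharP K p], ∃ f : PowerSeries K,
      f ^ (p ^ 2 - 1) * (1 + PowerSeries.X ^ (p ^ 2 - 1)) = 1 ∧ ¬ IsRationalFunction f ∧
      ∀ m : ℕ, IsPalPrefix f ((p ^ 2) ^ m - 1)) ∧
    (∀ (K : Type u) [Field K] [CharZero K] (f : PowerSeries K) (P : K[X][X]), P ≠ 0 →
      aeval f P = 0 → ¬ IsRationalFunction f →
      ∃ C N₀ : ℕ, 0 < C ∧ ∀ N ≥ N₀, ∀ s : ℕ,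
        {n : ℕ | N ≤ n ∧ ∃ c : K, c ≠ 0 ∧ C * {k : ℕ | k ≤ N ∧
          PowerSeries.coeff (n - k) f ≠ c * PowerSeries.coeff (s + k) f}.ncard ≤ N}.encard
            ≤ P.natDegree ∧
        {n : ℕ | ∃ c : K, c ≠ 0 ∧ C * {k : ℕ | k ≤ N ∧
          PowerSeries.coeff (n + k) f ≠ c * PowerSeries.coeff (s + k) f}.ncard ≤ N}.encard
            ≤ P.natDegree) := by
  refine ⟨fun K _ => Pool.Agent.Pal.model K,
    fun p _ K _ _ => ⟨Pool.Agent.Pal.ser K p, ?_, ?_, fun m k hk => Pool.Agent.Pal.ser_pal p m k hk⟩,
    fun K _ _ f P hP hPf hirr => Pool.Agent.Pal.nonrecurrence f P hP hPf hirr⟩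
  · have h := Pool.Agent.Pal.ser_pow (K := K) p
    rw [Polynomial.coe_add, Polynomial.coe_one, Polynomial.coe_pow, Polynomial.coe_X] at h
    exact h
  · rintro ⟨P, Q, hQ, hPQ⟩
    exact Pool.Agent.Pal.ser_irrational p P Q hQ hPQ

end Pool.Agent.Results.MP_66aed5_nt.FunctionFieldModel
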